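import Pool.Agent.K7.H74.AF.Stm

set_option autoImplicit false

/-!
# Job TBASE: the excess sets for `k + 1` variables
-/

open MeasureTheory Finset

namespace Pool.Agent.K7.H74.AF

theorem tbase_fib (t : ℕ) (F : ℕ → ENNReal) :
    ∑' b : Fin t → ℕ, F (mx b) ≤ ∑' m : ℕ, ((m : ENNReal) + 1) ^ t * F m := by
  rw [← (Equiv.sigmaFiberEquiv (fun b : Fin t → ℕ => mx b)).tsum_eq, ENNReal.tsum_sigma']
  refine ENNReal.tsum_le_tsum fun m => ?_
  have h1 : ∀ b : {b : Fin t → ℕ // mx b = m},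
      F (mx ((Equiv.sigmaFiberEquiv (fun b : Fin t → ℕ => mx b)) ⟨m, b⟩)) = F m := by
    intro b
    rw [Equiv.sigmaFiberEquiv_apply, b.2]
  simp_rw [h1]
  have hle : ∀ (b : {b : Fin t → ℕ // mx b = m}) (i : Fin t), b.1 i < m + 1 := by
    intro b i
    have : b.1 i ≤ mx b.1 := Finset.le_sup (f := b.1) (Finset.mem_univ i)
    rw [b.2] at this
    omega
  have hinj : Function.Injective
      (fun (b : {b : Fin t → ℕ // mx b = m}) (i : Fin t) => (⟨b.1 i, hle b i⟩ : Fin (m + 1))) := by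
    intro b b' h
    apply Subtype.ext
    funext i
    have := congrFun h i
    exact congrArg Fin.val this
  refine (ENNReal.tsum_comp_le_tsum_of_injective hinj (fun _ => F m)).trans ?_
  rw [tsum_fintype, Finset.sum_const, Finset.card_univ, Fintype.card_fun, Fintype.card_fin,
    Fintype.card_fin, nsmul_eq_mul]
  push_cast
  exact le_rfl

theorem tbase_summ (t A : ℕ) (C ε : ℝ) (hC : 0 < C) (hε : 0 < ε) :
    ∑' b : Fin t → ℕ, ENNReal.ofReal (C * (1 + (mx b : ℝ)) ^ A * ((3 : ℝ) ^ mx b) ^ (-ε)) ≠ ⊤ := by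
  have h0 := tbase_fib t (fun m => ENNReal.ofReal (C * (1 + (m : ℝ)) ^ A * ((3 : ℝ) ^ m) ^ (-ε)))
  refine ne_top_of_le_ne_top ?_ h0
  set ρ : ℝ := (3 : ℝ) ^ (-ε) with hρ
  have hρ0 : 0 < ρ := by positivity
  have hρ1 : ρ < 1 := Real.rpow_lt_one_of_one_lt_of_neg (by norm_num) (by linarith)
  have hs : Summable (fun n : ℕ => (n : ℝ) ^ (t + A) * ρ ^ n) :=
    summable_pow_mul_geometric_of_norm_lt_one (t + A) (by
      rw [Real.norm_of_nonneg hρ0.le]; exact hρ1)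
  have hs' : Summable (fun n : ℕ => C * ρ⁻¹ * (((n + 1 : ℕ) : ℝ) ^ (t + A) * ρ ^ (n + 1))) :=
    ((summable_nat_add_iff 1).2 hs).mul_left _
  have hterm : ∀ m : ℕ, ((m : ENNReal) + 1) ^ t *
      ENNReal.ofReal (C * (1 + (m : ℝ)) ^ A * ((3 : ℝ) ^ m) ^ (-ε)) =
        ENNReal.ofReal (C * ρ⁻¹ * (((m + 1 : ℕ) : ℝ) ^ (t + A) * ρ ^ (m + 1))) := by
    intro m
    have e1 : ((m : ENNReal) + 1) ^ t = ENNReal.ofReal (((m : ℝ) + 1) ^ t) := by
      rw [ENNReal.ofReal_pow (by positivity), ENNReal.ofReal_add (by positivity) (by norm_num),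
        ENNReal.ofReal_natCast, ENNReal.ofReal_one]
    rw [e1, ← ENNReal.ofReal_mul (by positivity)]
    congr 1
    have e2 : ((3 : ℝ) ^ m) ^ (-ε) = ρ ^ m := by
      rw [hρ, ← Real.rpow_natCast (3 : ℝ) m, ← Real.rpow_natCast ((3 : ℝ) ^ (-ε)) m,
        ← Real.rpow_mul (by norm_num), ← Real.rpow_mul (by norm_num), mul_comm]
    rw [e2]
    push_cast
    field_simp
    ring
  simp_rw [hterm]
  rw [← ENNReal.ofReal_tsum_of_nonneg (fun m => by positivity) hs']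
  exact ENNReal.ofReal_ne_top

/-- JOB TBASE -/
theorem tbase (hV : StVar) (hM : StMeas) (_hS : StSplit) : StTbase := by
  intro k ε η hk hε hη hη1
  obtain ⟨C, A, hC, hvar⟩ := hV k η hk hη hη1
  set g : (Fin (k + 1) → ℕ) → (Fin (k + 1) → ℝ) → ENNReal := fun b ξ =>
    ∫⁻ τ : ℝ, ENNReal.ofReal (((cn k ξ b η τ : ℝ) - vl k b η τ) ^ 2) with hg
  have hfm : ∀ b : Fin (k + 1) → ℕ, Measurable (fun p : (Fin (k + 1) → ℝ) × ℝ =>
      ENNReal.ofReal (((cn k p.1 b η p.2 : ℝ) - vl k b η p.2) ^ 2)) := fun b =>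
    ENNReal.measurable_ofReal.comp
      (((hM.1 k (k + 1) b η).sub ((hM.2.1 k (k + 1) b η).comp measurable_snd)).pow_const 2)
  have hgm : ∀ b, Measurable (g b) := fun b => (hfm b).lintegral_prod_right'
  set w : (Fin (k + 1) → ℕ) → ENNReal := fun b =>
    ENNReal.ofReal (((3 : ℝ) ^ mx b) ^ (-((k : ℝ) + 1 + ε))) with hw
  have hsum : ∫⁻ ξ, ∑' b, w b * g b ξ ∂(cube (k + 1)) ≠ ⊤ := by
    rw [lintegral_tsum (fun b => ((hgm b).const_mul _).aemeasurable)]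
    refine ne_top_of_le_ne_top (tbase_summ (k + 1) A C ε hC hε) (ENNReal.tsum_le_tsum fun b => ?_)
    rw [lintegral_const_mul _ (hgm b)]
    refine (mul_le_mul_right (hvar b) (w b)).trans ?_
    rw [hw, ← ENNReal.ofReal_mul (by positivity)]
    refine ENNReal.ofReal_le_ofReal (le_of_eq ?_)
    have e1 : ((3 : ℝ) ^ mx b) ^ (-((k : ℝ) + 1 + ε)) * ((3 : ℝ) ^ mx b) ^ (k + 1) =
        ((3 : ℝ) ^ mx b) ^ (-ε) := by
      rw [← Real.rpow_natCast ((3 : ℝ) ^ mx b) (k + 1), ← Real.rpow_add (by positivity)]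
      congr 1
      push_cast
      ring
    calc ((3 : ℝ) ^ mx b) ^ (-((k : ℝ) + 1 + ε)) * (C * (1 + (mx b : ℝ)) ^ A * ((3 : ℝ) ^ mx b) ^ (k + 1))
        = C * (1 + (mx b : ℝ)) ^ A *
          (((3 : ℝ) ^ mx b) ^ (-((k : ℝ) + 1 + ε)) * ((3 : ℝ) ^ mx b) ^ (k + 1)) := by ring
      _ = _ := by rw [e1]
  have hae := ae_lt_top (Measurable.tsum fun b => (hgm b).const_mul (w b)) hsum
  filter_upwards [hae] with ξ hξ
  set S := ∑' b, w b * g b ξ with hSdef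
  have hSne : S ≠ ⊤ := hξ.ne
  refine ⟨⌈S.toReal⌉₊, fun b _ J l hJ _ => ?_⟩
  have hwpos : 0 < ((3 : ℝ) ^ mx b) ^ (-((k : ℝ) + 1 + ε)) := by positivity
  -- the second moment
  have h1 : w b * g b ξ ≤ S := ENNReal.le_tsum b
  -- Chebyshev
  have h2 : ENNReal.ofReal ((2 ^ l) ^ 2) * volume (Ex k ξ b η l) ≤ g b ξ := by
    have h3 := mul_meas_ge_le_lintegral (μ := (volume : Measure ℝ))
      ((hfm b).comp (measurable_prodMk_left (x := ξ))) (ENNReal.ofReal ((2 ^ l) ^ 2))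
    refine le_trans (mul_le_mul_right (measure_mono ?_) _) h3
    intro τ hτ
    have hτ' : vl k b η τ + (2 : ℝ) ^ l ≤ cn k ξ b η τ := hτ
    refine ENNReal.ofReal_le_ofReal ?_
    exact pow_le_pow_left₀ (by positivity) (by simp only; linarith) 2
  have h3 : ENNReal.ofReal (((3 : ℝ) ^ mx b) ^ (-((k : ℝ) + 1 + ε)) * (2 ^ l) ^ 2) *
      volume (Ex k ξ b η l) ≤ ENNReal.ofReal S.toReal := by
    rw [ENNReal.ofReal_toReal hSne, ENNReal.ofReal_mul hwpos.le, mul_assoc]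
    exact (mul_le_mul_right h2 _).trans h1
  have hpos : 0 < ((3 : ℝ) ^ mx b) ^ (-((k : ℝ) + 1 + ε)) * ((2 : ℝ) ^ l) ^ 2 := by positivity
  have h4 : volume (Ex k ξ b η l) ≤
      ENNReal.ofReal (S.toReal / (((3 : ℝ) ^ mx b) ^ (-((k : ℝ) + 1 + ε)) * (2 ^ l) ^ 2)) := by
    rw [ENNReal.ofReal_div_of_pos hpos, ENNReal.le_div_iff_mul_le
      (Or.inl (by simpa using hpos)) (Or.inl ENNReal.ofReal_ne_top), mul_comm]
    exact h3
  refine h4.trans (ENNReal.ofReal_le_ofReal ?_)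
  have h3J : (1 : ℝ) ≤ (3 : ℝ) ^ mx b := one_le_pow₀ (by norm_num)
  have hmono : (3 : ℝ) ^ mx b ≤ (3 : ℝ) ^ J := pow_le_pow_right₀ (by norm_num) hJ
  have h5 : ((3 : ℝ) ^ mx b) ^ ((k : ℝ) + 1 + ε) ≤ ((3 : ℝ) ^ J) ^ ((k : ℝ) + 1 + ε) :=
    Real.rpow_le_rpow (by positivity) hmono (by positivity)
  have h6 : ((3 : ℝ) ^ J) ^ ((k : ℝ) - 2 ^ 1 / 2 + ε) * ((((3 : ℝ) ^ J) ^ ((1 : ℕ) : ℝ)) ^ (2 ^ 1)) =
      ((3 : ℝ) ^ J) ^ ((k : ℝ) + 1 + ε) := by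
    rw [← Real.rpow_natCast _ (2 ^ 1), ← Real.rpow_mul (by positivity), ← Real.rpow_add (by positivity)]
    congr 1
    push_cast
    ring
  rw [div_pow, ← mul_div_assoc, mul_assoc, h6, Real.rpow_neg (by positivity)]
  have h7 : S.toReal ≤ (⌈S.toReal⌉₊ : ℝ) := Nat.le_ceil _
  have hS0 : 0 ≤ S.toReal := ENNReal.toReal_nonneg
  have e : S.toReal / ((((3 : ℝ) ^ mx b) ^ ((k : ℝ) + 1 + ε))⁻¹ * (2 ^ l) ^ 2) =
      S.toReal * ((3 : ℝ) ^ mx b) ^ ((k : ℝ) + 1 + ε) / (2 ^ l) ^ (2 ^ 1) := by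
    have : ((3 : ℝ) ^ mx b) ^ ((k : ℝ) + 1 + ε) ≠ 0 := by positivity
    rw [show (2 : ℕ) ^ 1 = 2 from rfl]
    field_simp
  rw [e]
  refine div_le_div_of_nonneg_right ?_ (by positivity)
  exact mul_le_mul h7 h5 (by positivity) (by positivity)

end Pool.Agent.K7.H74.AF
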